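import Mathlib
import Pool.Agent.H10.WidthDefs
import Pool.Agent.H10.Width

set_option autoImplicit false

namespace Pool.Agent.Results.MP_1a6900_co.Order

open Pool.Agent.H10.Width in
/-- For every `t` in `(0,1]`, `N(n,t)` has order of magnitude `2^n / n`. -/
theorem result : ∃ c : ℝ, 0 < c ∧ ∀ t : ℝ, 0 < t → t ≤ 1 → ∀ n : ℕ, 1 ≤ n →
    c * (2 ^ n / n) ≤ N n t ∧ (N n t : ℝ) ≤ 2 ^ n / n :=
  theta

end Pool.Agent.Results.MP_1a6900_co.Order
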